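import Pool.Agent.LI39.Tails

/-!
Sums of vectors in several tails.
-/

namespace Pool.Agent.H1L39

open Pool.Agent.LI39

/-- The dual lattice `L^*` of `L`. -/
def dualL {n : ℕ} (G : Matrix (Fin n) (Fin n) ℤ) : Set (LR n) :=
  {w | ∀ y ∈ latticeL n, ∃ m : ℤ, formL G w y = m}

/-- The subspaces `E i` of `V` are pairwise orthogonal, and for every choice of positive definite
planes `⟨x i, y i⟩ ⊂ E i` there is a Kaehler decomposition `V = N ⊕ P` such that `P` contains all
`x i` and `y i`, and `N` contains every vector of every `E i` orthogonal to `x i` and `y i`. -/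
def TailSystem {n : ℕ} (G : Matrix (Fin n) (Fin n) ℤ) (q : ℝ) (A : Set (LR n)) {r : ℕ}
    (E : Fin r → Submodule ℝ (LR n)) : Prop :=
  (∀ i j, i ≠ j → ∀ x ∈ E i, ∀ y ∈ E j, formL G x y = 0) ∧
  ∀ x y : Fin r → LR n, (∀ i, x i ∈ E i ∧ y i ∈ E i ∧ 0 < formL G (x i) (x i) ∧
      formL G (y i) (y i) = formL G (x i) (x i) ∧ formL G (x i) (y i) = 0) →
    ∃ N P, KaehlerDec G q A N P ∧ ∀ i, x i ∈ P ∧ y i ∈ P ∧
      ∀ w ∈ E i, formL G w (x i) = 0 → formL G w (y i) = 0 → w ∈ N

/-- `v` and isotropic `e, f, g` in `E` with `(e, f) = (v, g) = 1`, all other products zero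
(`(v, v)` is arbitrary). -/
def InTail {n : ℕ} (G : Matrix (Fin n) (Fin n) ℤ) (E : Submodule ℝ (LR n)) (v : LR n) : Prop :=
  v ∈ E ∧ ∃ e ∈ E, ∃ f ∈ E, ∃ g ∈ E, formL G e e = 0 ∧ formL G f f = 0 ∧ formL G g g = 0 ∧
    formL G e f = 1 ∧ formL G v g = 1 ∧ formL G v e = 0 ∧ formL G v f = 0 ∧
    formL G g e = 0 ∧ formL G g f = 0

/-- `w` is a sum of vectors in the tails `E i`, all of norm at least zero or all of norm at most
zero. -/
def TailSum {n : ℕ} (G : Matrix (Fin n) (Fin n) ℤ) (q : ℝ) (A : Set (LR n)) (w : LR n) : Prop :=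
  ∃ (r : ℕ) (E : Fin r → Submodule ℝ (LR n)) (v : Fin r → LR n), TailSystem G q A E ∧
    (∀ i, InTail G (E i) (v i)) ∧ w = ∑ i, v i ∧
    ((∀ i, 0 ≤ formL G (v i) (v i)) ∨ ∀ i, formL G (v i) (v i) ≤ 0)

section split

variable {M : Type*} [AddCommGroup M] [Module ℝ M] {B : M → M → ℝ}

lemma sum_left (hB : SymBilin B) {ι : Type*} (s : Finset ι) (u : ι → M) (y : M) :
    B (∑ i ∈ s, u i) y = ∑ i ∈ s, B (u i) y := by
  classical
  induction s using Finset.induction_on with
  | empty => simp [hB.zero_left]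
  | insert a s ha ih => rw [Finset.sum_insert ha, Finset.sum_insert ha, hB.add_left, ih]

lemma split (hB : SymBilin B) {E : Submodule ℝ M} {v e f g : M} (hv : v ∈ E) (he : e ∈ E)
    (hf : f ∈ E) (hg : g ∈ E) (hee : B e e = 0) (hff : B f f = 0) (hgg : B g g = 0)
    (hef : B e f = 1) (hvg : B v g = 1) (hve : B v e = 0) (hvf : B v f = 0) (hge : B g e = 0)
    (hgf : B g f = 0) {δ : ℝ} (hδ : 0 < δ) :
    ∃ x ∈ E, ∃ y ∈ E, 0 < B x x ∧ B y y = B x x ∧ B x y = 0 ∧ ∃ u ∈ E, ∃ c : ℝ,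
      v = u + c • x ∧ B u x = 0 ∧ B u y = 0 ∧ min 0 (B v v) - δ ≤ B u u := by
  have hfe : B f e = 1 := by rw [hB.symm, hef]
  have hgv : B g v = 1 := by rw [hB.symm, hvg]
  have hev : B e v = 0 := by rw [hB.symm, hve]
  have hfv : B f v = 0 := by rw [hB.symm, hvf]
  have heg : B e g = 0 := by rw [hB.symm, hge]
  have hfg : B f g = 0 := by rw [hB.symm, hgf]
  have hyE : ∀ s : ℝ, s • (e + f) ∈ E := fun s => E.smul_mem _ (E.add_mem he hf)
  have hyy : ∀ s : ℝ, B (s • (e + f)) (s • (e + f)) = 2 * (s * s) := by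
    intro s
    simp only [hB.smul_left, hB.smul_right, hB.add_left, hB.add_right, hee, hff, hef, hfe]
    ring
  have hvy : ∀ s : ℝ, B v (s • (e + f)) = 0 := by
    intro s
    simp only [hB.smul_right, hB.add_right, hve, hvf]
    ring
  have hgy : ∀ s : ℝ, B g (s • (e + f)) = 0 := by
    intro s
    simp only [hB.smul_right, hB.add_right, hge, hgf]
    ring
  rcases lt_trichotomy (B v v) 0 with hlt | heq | hgt
  · -- negative norm
    have hs : Real.sqrt (-(B v v) / 2) * Real.sqrt (-(B v v) / 2) = -(B v v) / 2 :=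
      Real.mul_self_sqrt (by linarith)
    have hxx : B (v - B v v • g) (v - B v v • g) = -(B v v) := by
      simp only [hB.sub_left, hB.sub_right, hB.smul_left, hB.smul_right, hvg, hgv, hgg]
      ring
    refine ⟨v - B v v • g, E.sub_mem hv (E.smul_mem _ hg), Real.sqrt (-(B v v) / 2) • (e + f),
      hyE _, by rw [hxx]; linarith, by rw [hxx, hyy, hs]; ring, ?_, v, hv, 0, by simp, ?_, hvy _,
      ?_⟩
    · rw [hB.sub_left, hB.smul_left, hvy, hgy]
      ring
    · rw [hB.sub_right, hB.smul_right, hvg]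
      ring
    · have := min_le_right 0 (B v v)
      linarith
  · -- norm zero
    set τ := Real.sqrt (2 * δ) with hτ
    have hτ2 : τ * τ = 2 * δ := Real.mul_self_sqrt (by linarith)
    have hτ0 : 0 < τ := Real.sqrt_pos.mpr (by linarith)
    have hτ1 : τ⁻¹ * τ = 1 := inv_mul_cancel₀ hτ0.ne'
    have hxx : B (τ⁻¹ • v + τ • g) (τ⁻¹ • v + τ • g) = 2 := by
      simp only [hB.add_left, hB.add_right, hB.smul_left, hB.smul_right, hvg, hgv, hgg, heq]
      linarith
    refine ⟨τ⁻¹ • v + τ • g, E.add_mem (E.smul_mem _ hv) (E.smul_mem _ hg), (1 : ℝ) • (e + f),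
      hyE _, by rw [hxx]; norm_num, by rw [hxx, hyy]; norm_num, ?_,
      (1 / 2 : ℝ) • v - δ • g, E.sub_mem (E.smul_mem _ hv) (E.smul_mem _ hg), τ / 2, ?_, ?_, ?_, ?_⟩
    · rw [hB.add_left, hB.smul_left, hB.smul_left, hvy, hgy]
      ring
    · have e1 : τ / 2 * τ⁻¹ = 1 / 2 := by field_simp
      have e2 : τ / 2 * τ = δ := by linarith
      rw [smul_add, smul_smul, smul_smul, e1, e2]
      module
    · simp only [hB.sub_left, hB.add_right, hB.smul_left, hB.smul_right, hvg, hgv, hgg, heq]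
      have e1 : δ * τ⁻¹ = τ / 2 := by
        field_simp
        linarith
      linear_combination -e1
    · rw [hB.sub_left, hB.smul_left, hB.smul_left, hvy, hgy]
      ring
    · simp only [hB.sub_left, hB.sub_right, hB.smul_left, hB.smul_right, hvg, hgv, hgg, heq]
      rw [min_self]
      linarith
  · -- positive norm
    have hs : Real.sqrt (B v v / 2) * Real.sqrt (B v v / 2) = B v v / 2 :=
      Real.mul_self_sqrt (by linarith)
    refine ⟨v, hv, Real.sqrt (B v v / 2) • (e + f), hyE _, hgt, by rw [hyy, hs]; ring, hvy _,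
      0, E.zero_mem, 1, by simp, hB.zero_left _, hB.zero_left _, ?_⟩
    rw [hB.zero_left, min_eq_left hgt.le]
    linarith

end split

variable {n : ℕ} {G : Matrix (Fin n) (Fin n) ℤ}

lemma formL_bil (hG : G.IsSymm) : SymBilin (formL G) := form_bil hG

/-- Real multiples of a sum of vectors in tails. -/
theorem tailSum_mem (hG : G.IsSymm) {q : ℝ} (hq : 0 < q) {A : Set (LR n)} {w : LR n}
    (hw : TailSum G q A w) {t : ℝ} (ht : 0 < q + t * t * formL G w w) : t • w ∈ A := by
  have hB := formL_bil hG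
  obtain ⟨r, E, v, ⟨horth, hsys⟩, hin, rfl, hsign⟩ := hw
  set B := formL G with hBdef
  -- the norm of a sum of vectors in the `E i`
  have hnorm : ∀ u : Fin r → LR n, (∀ i, u i ∈ E i) →
      B (∑ i, u i) (∑ i, u i) = ∑ i, B (u i) (u i) := by
    intro u hu
    rw [sum_left hB]
    refine Finset.sum_congr rfl fun i _ => ?_
    rw [hB.symm, sum_left hB, Finset.sum_eq_single i]
    · intro j _ hji
      exact horth j i hji _ (hu j) _ (hu i)
    · intro h
      exact absurd (Finset.mem_univ i) h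
  set D : ℝ := q + t * t * min 0 (B (∑ i, v i) (∑ i, v i)) with hD
  have hD0 : 0 < D := by
    rcases le_total 0 (B (∑ i, v i) (∑ i, v i)) with h | h
    · rw [hD, min_eq_left h]
      linarith
    · rw [hD, min_eq_right h]
      exact ht
  have hpos : 0 < (t * t + 1) * ((r : ℝ) + 1) := by
    have : 0 ≤ t * t := mul_self_nonneg t
    positivity
  set δ : ℝ := D / ((t * t + 1) * ((r : ℝ) + 1)) with hδ
  have hδ0 : 0 < δ := div_pos hD0 hpos
  have hex : ∀ i, ∃ x ∈ E i, ∃ y ∈ E i, 0 < B x x ∧ B y y = B x x ∧ B x y = 0 ∧ ∃ u ∈ E i,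
      ∃ c : ℝ, v i = u + c • x ∧ B u x = 0 ∧ B u y = 0 ∧ min 0 (B (v i) (v i)) - δ ≤ B u u := by
    intro i
    obtain ⟨hv, e, he, f, hf, g, hg, a1, a2, a3, a4, a5, a6, a7, a8, a9⟩ := hin i
    exact split hB hv he hf hg a1 a2 a3 a4 a5 a6 a7 a8 a9 hδ0
  choose x hx y hy hxx hyy hxy u hu c hvu hux huy hmin using hex
  obtain ⟨N, P, hK, hNP⟩ := hsys x y fun i => ⟨hx i, hy i, hxx i, hyy i, hxy i⟩
  have huN : ∑ i, u i ∈ N := N.sum_mem fun i _ => (hNP i).2.2 _ (hu i) (hux i) (huy i)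
  have hρP : ∑ i, c i • x i ∈ P := P.sum_mem fun i _ => P.smul_mem _ (hNP i).1
  have hsum : ∑ i, v i = ∑ i, u i + ∑ i, c i • x i := by
    rw [← Finset.sum_add_distrib]
    exact Finset.sum_congr rfl fun i _ => hvu i
  have hmin' : ∑ i, min 0 (B (v i) (v i)) = min 0 (B (∑ i, v i) (∑ i, v i)) := by
    rw [hnorm v fun i => (hin i).1]
    rcases hsign with h | h
    · rw [min_eq_left (Finset.sum_nonneg fun i _ => h i)]
      exact Finset.sum_eq_zero fun i _ => min_eq_left (h i)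
    · rw [min_eq_right (Finset.sum_nonpos fun i _ => h i)]
      exact Finset.sum_congr rfl fun i _ => min_eq_right (h i)
  have hlow : min 0 (B (∑ i, v i) (∑ i, v i)) - r * δ ≤ B (∑ i, u i) (∑ i, u i) := by
    rw [hnorm u hu, ← hmin']
    have h1 : ∑ i : Fin r, (min 0 (B (v i) (v i)) - δ) ≤ ∑ i, B (u i) (u i) :=
      Finset.sum_le_sum fun i _ => hmin i
    rw [Finset.sum_sub_distrib, Finset.sum_const, Finset.card_univ, Fintype.card_fin,
      nsmul_eq_mul] at h1
    exact h1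
  have h1 := hK.2.2.2.2 (t • ∑ i, u i) (N.smul_mem _ huN) (t • ∑ i, c i • x i)
    (P.smul_mem _ hρP) (by
      rw [← hBdef, hB.smul_left, hB.smul_right, ← mul_assoc]
      have h2 : t * t * (min 0 (B (∑ i, v i) (∑ i, v i)) - r * δ) ≤
          t * t * B (∑ i, u i) (∑ i, u i) := mul_le_mul_of_nonneg_left hlow (mul_self_nonneg t)
      have h3 : t * t * (r * δ) < D := by
        have h4 : D = (t * t + 1) * ((r : ℝ) + 1) * δ := by
          rw [hδ]
          field_simp
        rw [h4]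
        have h5 : 0 ≤ t * t := mul_self_nonneg t
        have h6 : (0 : ℝ) ≤ r := Nat.cast_nonneg r
        nlinarith [mul_nonneg h5 hδ0.le, mul_nonneg h6 hδ0.le]
      linarith)
  rw [← smul_add, ← hsum] at h1
  exact h1

end Pool.Agent.H1L39
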