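import Pool.Agent.H1L39.Class
import Pool.Agent.H1L39.Sums

/-!
Every class: the general theorem.
-/

namespace Pool.Agent.H1L39

open Pool.Agent.LI39

variable {n : ℕ} {G : Matrix (Fin n) (Fin n) ℤ}

lemma hyp_gram_even (hG : G.IsSymm) (heven : ∀ i, Even (G i i)) :
    ∀ u ∈ hypL (intL n), ∃ m : ℤ, hyp (gram G) u u = 2 * m := by
  rintro u ⟨⟨a, ha⟩, ⟨b, hb⟩, hw⟩
  have hgram : ∃ m : ℤ, gram G u.2.2 u.2.2 = 2 * m := by
    choose w hw' using hw
    have key : ∀ w : Fin n → ℤ, Even (∑ i, ∑ j, w i * G i j * w j) := by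
      intro w
      have h1 : ∑ i, ∑ j, w i * G i j * w j = ∑ i, w i * G i i * w i +
          2 * ∑ i, ∑ j ∈ Finset.univ.filter (fun j => i < j), w i * G i j * w j := by
        have h2 : ∀ i, ∑ j, w i * G i j * w j = w i * G i i * w i +
            ∑ j ∈ Finset.univ.filter (fun j => i < j), w i * G i j * w j +
            ∑ j ∈ Finset.univ.filter (fun j => j < i), w i * G i j * w j := by
          intro i
          have h3 : (Finset.univ : Finset (Fin n)) = ({i} ∪ Finset.univ.filter (fun j => i < j)) ∪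
              Finset.univ.filter (fun j => j < i) := by
            ext j
            simp only [Finset.mem_univ, Finset.mem_union, Finset.mem_singleton,
              Finset.mem_filter, true_and, true_iff]
            rcases lt_trichotomy i j with h | h | h
            · exact Or.inl (Or.inr h)
            · exact Or.inl (Or.inl h.symm)
            · exact Or.inr h
          conv_lhs => rw [h3]
          rw [Finset.sum_union, Finset.sum_union, Finset.sum_singleton]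
          · rw [Finset.disjoint_left]
            intro j hj hj'
            rw [Finset.mem_singleton] at hj
            rw [Finset.mem_filter] at hj'
            exact absurd hj'.2 (by rw [hj]; exact lt_irrefl _)
          · rw [Finset.disjoint_left]
            intro j hj hj'
            rw [Finset.mem_union, Finset.mem_singleton, Finset.mem_filter] at hj
            rw [Finset.mem_filter] at hj'
            rcases hj with hj | hj
            · exact absurd hj'.2 (by rw [hj]; exact lt_irrefl _)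
            · exact absurd hj.2 (not_lt.mpr hj'.2.le)
        rw [Finset.sum_congr rfl fun i _ => h2 i, Finset.sum_add_distrib,
          Finset.sum_add_distrib]
        have h4 : ∑ i, ∑ j ∈ Finset.univ.filter (fun j => j < i), w i * G i j * w j =
            ∑ i, ∑ j ∈ Finset.univ.filter (fun j => i < j), w i * G i j * w j := by
          rw [Finset.sum_comm' (t' := Finset.univ)
            (s' := fun j => Finset.univ.filter (fun i => j < i))]
          · refine Finset.sum_congr rfl fun i _ => Finset.sum_congr rfl fun j _ => ?_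
            rw [← hG.apply i j]
            ring
          · intro i j
            simp
        rw [h4]
        ring
      rw [h1]
      refine Even.add ?_ ⟨_, two_mul _⟩
      refine Finset.even_sum _ fun i _ => ?_
      exact ((heven i).mul_left _).mul_right _
    obtain ⟨m, hm⟩ := key w
    refine ⟨m, ?_⟩
    have : gram G u.2.2 u.2.2 = ((∑ i, ∑ j, w i * G i j * w j : ℤ) : ℝ) := by
      simp only [gram, hw']
      push_cast
      rfl
    rw [this, hm]
    push_cast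
    ring
  obtain ⟨m, hm⟩ := hgram
  refine ⟨a * b + m, ?_⟩
  simp only [hyp, ha, hb, hm]
  push_cast
  ring

/-- A nonzero vector pairs nontrivially with a lattice vector. -/
lemma exists_pair (hG : G.IsSymm) (hdet : G.det ≠ 0) {z : V n} (hz : z ≠ 0) :
    ∃ y ∈ hypL (hypL (hypL (intL n))), hyp (hyp (hyp (gram G))) z y ≠ 0 := by
  have hB0 := gram_bil hG
  have hB1 := hB0.hyp
  have hB2 := hB1.hyp
  by_contra hcon
  push Not at hcon
  apply hz
  have z0 : ∀ k : ℕ, ∃ m : ℤ, ((k : ℕ) : ℝ) = m := fun k => ⟨k, by simp⟩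
  have c1 := hcon ((0 : ℝ), (1 : ℝ), 0) ⟨⟨0, by simp⟩, ⟨1, by simp⟩, AddSubgroup.zero_mem _⟩
  have c2 := hcon ((1 : ℝ), (0 : ℝ), 0) ⟨⟨1, by simp⟩, ⟨0, by simp⟩, AddSubgroup.zero_mem _⟩
  have c3 := hcon ((0 : ℝ), (0 : ℝ), ((0 : ℝ), (1 : ℝ), 0))
    ⟨⟨0, by simp⟩, ⟨0, by simp⟩, ⟨0, by simp⟩, ⟨1, by simp⟩, AddSubgroup.zero_mem _⟩
  have c4 := hcon ((0 : ℝ), (0 : ℝ), ((1 : ℝ), (0 : ℝ), 0))
    ⟨⟨0, by simp⟩, ⟨0, by simp⟩, ⟨1, by simp⟩, ⟨0, by simp⟩, AddSubgroup.zero_mem _⟩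
  have e1 : z.1 = 0 := by
    have : z.1 * 1 + z.2.1 * 0 + hyp (hyp (gram G)) z.2.2 0 = 0 := c1
    rw [hB2.zero_right] at this
    linarith
  have e2 : z.2.1 = 0 := by
    have : z.1 * 0 + z.2.1 * 1 + hyp (hyp (gram G)) z.2.2 0 = 0 := c2
    rw [hB2.zero_right] at this
    linarith
  have e3 : z.2.2.1 = 0 := by
    have : z.1 * 0 + z.2.1 * 0 + (z.2.2.1 * 1 + z.2.2.2.1 * 0 + hyp (gram G) z.2.2.2.2 0) = 0 := c3
    rw [hB1.zero_right] at this
    linarith
  have e4 : z.2.2.2.1 = 0 := by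
    have : z.1 * 0 + z.2.1 * 0 + (z.2.2.1 * 0 + z.2.2.2.1 * 1 + hyp (gram G) z.2.2.2.2 0) = 0 := c4
    rw [hB1.zero_right] at this
    linarith
  have e5 : z.2.2.2.2 = 0 := by
    refine nondeg hG hdet fun u hu => ?_
    have : z.1 * 0 + z.2.1 * 0 + (z.2.2.1 * 0 + z.2.2.2.1 * 0 + hyp (gram G) z.2.2.2.2 u) = 0 :=
      hcon ((0 : ℝ), (0 : ℝ), ((0 : ℝ), (0 : ℝ), u))
        ⟨⟨0, by simp⟩, ⟨0, by simp⟩, ⟨0, by simp⟩, ⟨0, by simp⟩, hu⟩
    linarith
  exact Prod.ext e1 (Prod.ext e2 (Prod.ext e3 (Prod.ext e4 e5)))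

/-- If every class of `L^*` modulo `L` and every norm is represented by a sum of vectors in tails,
then `A` contains every `v` with `q + (v, v) > 0`. -/
theorem all_classes (hG : G.IsSymm) (heven : ∀ i, Even (G i i)) (hdet : G.det ≠ 0)
    (Γ : Subgroup (LR n ≃ₗ[ℝ] LR n)) (hΓ : ∀ γ, IsTransv G γ → γ ∈ Γ)
    {q : ℝ} (hq : 0 < q) {A : Set (LR n)} (hA : IsOpen A) (hinv : ∀ γ ∈ Γ, ∀ v ∈ A, γ v ∈ A)
    (hT : Tails G q A)
    (hR : ∀ w ∈ dualL G, w ∉ latticeL n → (∃ y ∈ latticeL n, formL G w y = 1) →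
      ∃ w', TailSum G q A w' ∧ formL G w' w' = formL G w w ∧
        (w' - w ∈ latticeL n ∨ w' + w ∈ latticeL n) ∧ ∃ y ∈ latticeL n, formL G w' y = 1)
    {v : LR n} (hv : 0 < q + formL G v v) : v ∈ A := by
  have hB0 := gram_bil hG
  have hB1 := hB0.hyp
  have hB2 := hB1.hyp
  have hBL := formL_bil hG
  have heven1 := hyp_gram_even hG heven
  have hi1 := hyp_int (gram_int (G := G))
  by_cases hirr : ∀ t : ℝ, ∀ z ∈ latticeL n, v ≠ t • z
  · exact tail_classes hG heven hdet Γ hΓ hq hA hinv hT hv (Or.inl hirr)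
  push Not at hirr
  obtain ⟨t, z, hz, rfl⟩ := hirr
  by_cases hz0 : z = 0
  · -- the zero vector
    subst hz0
    refine tails_UU hG hq hT ?_ hv
    refine ⟨0, 0, 0, 0, ?_⟩
    rw [smul_zero]
    rfl
  obtain ⟨y0, hy0, hzy⟩ := exists_pair hG hdet (z := z) hz0
  obtain ⟨γ, hγ, hP, α, b, κ, hα, hκ, hγz⟩ := eichlerN hi1 hB1 heven1 Γ
    (fun u hu => hΓ _ (transv_e1 hG hu)) (fun u hu => hΓ _ (transv_f1 hG hu))
    (fun u hu => hΓ _ (transv_e2 hG hu)) hz hy0 hzy
  set w : LR n := (((1 : ℝ), (b : ℝ), ((0 : ℝ), (0 : ℝ), κ)) : V n) with hw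
  have hγz' : (γ : LR n ≃ₗ[ℝ] LR n) z = (α : ℝ) • w := hγz
  have hαR : (α : ℝ) ≠ 0 := by exact_mod_cast hα
  have hαw : (α : ℝ) • w ∈ latticeL n := by
    rw [← hγz']
    exact (hP.2 z).mpr hz
  -- it is enough to treat multiples of `w`
  suffices key : ∀ s : ℝ, 0 < q + formL G (s • w) (s • w) → s • w ∈ A by
    have hlin : (γ : LR n ≃ₗ[ℝ] LR n) (t • z) = (t * α) • w :=
      (LinearEquiv.map_smul (γ : LR n ≃ₗ[ℝ] LR n) t z).trans
        ((congrArg (fun x : LR n => t • x) hγz').trans (smul_smul t (α : ℝ) w))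
    have hnorm : formL G ((γ : LR n ≃ₗ[ℝ] LR n) (t • z)) ((γ : LR n ≃ₗ[ℝ] LR n) (t • z)) =
        formL G (t • z) (t • z) := hP.1 _ _
    have hmem := key (t * α) (by rw [← hlin, hnorm]; exact hv)
    rw [← hlin] at hmem
    have h : (γ : LR n ≃ₗ[ℝ] LR n)⁻¹ ((γ : LR n ≃ₗ[ℝ] LR n) (t • z)) ∈ A :=
      hinv _ (Γ.inv_mem hγ) _ hmem
    have e : (γ : LR n ≃ₗ[ℝ] LR n)⁻¹ ((γ : LR n ≃ₗ[ℝ] LR n) (t • z)) = t • z :=
      LinearEquiv.symm_apply_apply (γ : LR n ≃ₗ[ℝ] LR n) _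
    rw [e] at h
    exact h
  intro s hs
  -- `(w, f) = 1`
  have hwd : w ∈ dualL G := by
    rintro x ⟨⟨x1, hx1⟩, ⟨x2, hx2⟩, -, -, hx5⟩
    obtain ⟨m, hm⟩ := hκ _ hx5
    refine ⟨x2 + b * x1 + m, ?_⟩
    show (1 : ℝ) * x.2.1 + b * x.1 + (0 * x.2.2.2.1 + 0 * x.2.2.1 +
      hyp (gram G) κ x.2.2.2.2) = _
    rw [hm, hx1, hx2]
    push_cast
    ring
  have hwf : ∃ y ∈ latticeL n, formL G w y = 1 := by
    refine ⟨(((0 : ℝ), (1 : ℝ), ((0 : ℝ), (0 : ℝ), 0)) : V n), ⟨⟨0, by simp⟩, ⟨1, by simp⟩,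
      ⟨0, by simp⟩, ⟨0, by simp⟩, AddSubgroup.zero_mem _⟩, ?_⟩
    show (1 : ℝ) * 1 + b * 0 + (0 * 0 + 0 * 0 + hyp (gram G) κ 0) = 1
    rw [hB1.zero_right]
    ring
  by_cases hwL : w ∈ latticeL n
  · obtain ⟨y, hy, hwy⟩ := hwf
    exact tail_classes hG heven hdet Γ hΓ hq hA hinv hT hs
      (Or.inr ⟨w, hwL, y, hy, hwy, s, rfl⟩)
  obtain ⟨w', hsum, hn, hcl, y, hy, hwy⟩ := hR w hwd hwL hwf
  obtain ⟨g, hg, c, hcc, hgw⟩ := class_line hi1 hB1 heven1 Γ
    (fun u hu => hΓ _ (transv_e1 hG hu)) (fun u hu => hΓ _ (transv_f1 hG hu))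
    (fun u hu => hΓ _ (transv_e2 hG hu)) hκ hα hαw hcl hn hy hwy
  have hgw' : (g : LR n ≃ₗ[ℝ] LR n) w' = c • w := hgw
  have h1 := tailSum_mem hG hq hsum (t := s * c) (by
    have e : s * c * (s * c) = s * s := by
      rw [mul_mul_mul_comm, hcc, mul_one]
    rw [e, hn]
    rw [hBL.smul_left, hBL.smul_right, ← mul_assoc] at hs
    exact hs)
  have h2 := hinv g hg _ h1
  have e : s * c * c = s := by rw [mul_assoc, hcc, mul_one]
  have h3 : (g : LR n ≃ₗ[ℝ] LR n) ((s * c) • w') = s • w :=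
    (LinearEquiv.map_smul (g : LR n ≃ₗ[ℝ] LR n) (s * c) w').trans
      ((congrArg (fun x : LR n => (s * c) • x) hgw').trans
        ((smul_smul (s * c) c w).trans (by rw [e])))
  rw [← h3]
  exact h2

end Pool.Agent.H1L39
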