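import Pool.Agent.H1L39.Orbit

/-!
Transvections act trivially on the discriminant group; vectors of the dual lattice of the same norm
and the same class up to sign are equivalent up to sign.
-/

namespace Pool.Agent.H1L39

open Pool.Agent.LI39

variable {M : Type*} [AddCommGroup M] [Module ℝ M] {B : M → M → ℝ} {L : AddSubgroup M}

/-- Isometries which preserve `L` and act trivially on the dual lattice modulo `L`. -/
def Triv (B : M → M → ℝ) (L : AddSubgroup M) (g : M ≃ₗ[ℝ] M) : Prop :=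
  Pres B L g ∧ ∀ x, (∀ y ∈ L, ∃ m : ℤ, B x y = m) → g x - x ∈ L

lemma Triv.mul (hint : ∀ x ∈ L, ∀ y ∈ L, ∃ m : ℤ, B x y = m) {g g' : M ≃ₗ[ℝ] M}
    (h : Triv B L g) (h' : Triv B L g') : Triv B L (g * g') := by
  refine ⟨h.1.mul h'.1, fun x hx => ?_⟩
  have h1 := h'.2 x hx
  have h2 : ∀ y ∈ L, ∃ m : ℤ, B (g' x) y = m := by
    intro y hy
    obtain ⟨y', rfl⟩ := g'.surjective y
    obtain ⟨m, hm⟩ := hx y' ((h'.1.2 y').mp hy)
    exact ⟨m, by rw [h'.1.1, hm]⟩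
  have h3 := L.add_mem (h.2 _ h2) h1
  have e : g (g' x) - g' x + (g' x - x) = (g * g') x - x := by
    show _ = g (g' x) - x
    abel
  rwa [e] at h3

lemma Triv.one : Triv B L (1 : M ≃ₗ[ℝ] M) :=
  ⟨⟨fun _ _ => rfl, fun _ => Iff.rfl⟩, fun x _ => by
    show x - x ∈ L
    rw [sub_self]
    exact L.zero_mem⟩

lemma Triv.inv {g : M ≃ₗ[ℝ] M} (h : Triv B L g) : Triv B L g⁻¹ := by
  have hp : ∀ x, g (g⁻¹ x) = x := fun x => g.apply_symm_apply x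
  refine ⟨⟨fun x y => ?_, fun x => ?_⟩, fun x hx => ?_⟩
  · rw [← h.1.1, hp, hp]
  · rw [← h.1.2, hp]
  · have h2 : ∀ y ∈ L, ∃ m : ℤ, B (g⁻¹ x) y = m := by
      intro y hy
      obtain ⟨m, hm⟩ := hx (g y) ((h.1.2 y).mpr hy)
      refine ⟨m, ?_⟩
      rw [← h.1.1, hp, hm]
    have h3 := L.neg_mem (h.2 _ h2)
    rw [hp] at h3
    have e : -(x - g⁻¹ x) = g⁻¹ x - x := by abel
    rwa [e] at h3

/-- The subgroup of the isometries `Triv`. -/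
def DT (hint : ∀ x ∈ L, ∀ y ∈ L, ∃ m : ℤ, B x y = m) : Subgroup (M ≃ₗ[ℝ] M) where
  carrier := {g | Triv B L g}
  mul_mem' := Triv.mul hint
  one_mem' := Triv.one
  inv_mem' := Triv.inv

omit [Module ℝ M] in
lemma hyp_even (heven : ∀ u ∈ L, ∃ m : ℤ, B u u = 2 * m) :
    ∀ u ∈ hypL L, ∃ m : ℤ, hyp B u u = 2 * m := by
  rintro u ⟨⟨a, ha⟩, ⟨b, hb⟩, hw⟩
  obtain ⟨m, hm⟩ := heven _ hw
  refine ⟨a * b + m, ?_⟩
  simp only [hyp, ha, hb, hm]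
  push_cast
  ring

lemma evL_triv (hint : ∀ x ∈ L, ∀ y ∈ L, ∃ m : ℤ, B x y = m) (hB : SymBilin B) {u : M}
    (hu : u ∈ L) (huu : ∃ m : ℤ, B u u = 2 * m) : Triv (hyp B) (hypL L) (evL hB u) := by
  refine ⟨evL_pres_even hint hB hu huu, fun x hx => ?_⟩
  obtain ⟨m, hm⟩ := huu
  obtain ⟨m1, hm1⟩ := hx ((0 : ℝ), (1 : ℝ), (0 : M)) ⟨⟨0, by simp⟩, ⟨1, by simp⟩, L.zero_mem⟩
  obtain ⟨m2, hm2⟩ := hx ((0 : ℝ), (0 : ℝ), u) ⟨⟨0, by simp⟩, ⟨0, by simp⟩, hu⟩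
  have e1 : x.1 = m1 := by
    rw [← hm1]
    show x.1 = x.1 * 1 + x.2.1 * 0 + B x.2.2 0
    rw [hB.zero_right]
    ring
  have e2 : B x.2.2 u = m2 := by
    rw [← hm2]
    show _ = x.1 * 0 + x.2.1 * 0 + B x.2.2 u
    ring
  refine ⟨⟨0, ?_⟩, ⟨m2 - m * m1, ?_⟩, ?_⟩
  · show x.1 - x.1 = ((0 : ℤ) : ℝ)
    simp
  · show x.2.1 + B x.2.2 u - B u u / 2 * x.1 - x.2.1 = ((m2 - m * m1 : ℤ) : ℝ)
    rw [e2, hm, e1]
    push_cast
    ring
  · show x.2.2 - x.1 • u - x.2.2 ∈ L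
    have e : x.2.2 - x.1 • u - x.2.2 = -(m1 • u) := by
      rw [e1, Int.cast_smul_eq_zsmul ℝ]
      abel
    rw [e]
    exact L.neg_mem (L.zsmul_mem hu _)

lemma swL_conj_triv {g : (ℝ × ℝ × M) ≃ₗ[ℝ] (ℝ × ℝ × M)} (hg : Triv (hyp B) (hypL L) g) :
    Triv (hyp B) (hypL L) (swL M * g * swL M) := by
  refine ⟨(swL_pres.mul hg.1).mul swL_pres, fun x hx => ?_⟩
  have h1 : ∀ y ∈ hypL L, ∃ m : ℤ, hyp B (swL M x) y = m := by
    intro y hy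
    obtain ⟨m, hm⟩ := hx (swL M y) ((swL_pres (B := B)).2 y |>.mpr hy)
    refine ⟨m, ?_⟩
    rw [← hm]
    have h2 := (swL_pres (B := B) (L := L)).1 (swL M x) y
    have h3 : swL M (swL M x) = x := rfl
    rw [h3] at h2
    exact h2.symm
  have h2 := hg.2 _ h1
  have h3 := ((swL_pres (B := B) (L := L)).2 _).mpr h2
  exact h3

lemma lift_triv {g : M ≃ₗ[ℝ] M} (hB : SymBilin B) (hg : Triv B L g) :
    Triv (hyp B) (hypL L) (lift g) := by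
  refine ⟨lift_pres hg.1, fun x hx => ?_⟩
  have h1 : ∀ y ∈ L, ∃ m : ℤ, B x.2.2 y = m := by
    intro y hy
    obtain ⟨m, hm⟩ := hx ((0 : ℝ), (0 : ℝ), y) ⟨⟨0, by simp⟩, ⟨0, by simp⟩, hy⟩
    refine ⟨m, ?_⟩
    rw [← hm]
    show _ = x.1 * 0 + x.2.1 * 0 + B x.2.2 y
    ring
  refine ⟨⟨0, ?_⟩, ⟨0, ?_⟩, hg.2 _ h1⟩
  · show x.1 - x.1 = ((0 : ℤ) : ℝ)
    simp
  · show x.2.1 - x.2.1 = ((0 : ℤ) : ℝ)
    simp

/-- Vectors of the dual lattice with the same norm and the same class up to sign are equivalent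
up to sign. -/
lemma class_line (hint : ∀ x ∈ L, ∀ y ∈ L, ∃ m : ℤ, B x y = m) (hB : SymBilin B)
    (heven : ∀ u ∈ L, ∃ m : ℤ, B u u = 2 * m)
    (Γ : Subgroup ((ℝ × ℝ × (ℝ × ℝ × M)) ≃ₗ[ℝ] (ℝ × ℝ × (ℝ × ℝ × M))))
    (h1 : ∀ u ∈ hypL L, evL hB.hyp u ∈ Γ) (h2 : ∀ u ∈ hypL L, fvL hB.hyp u ∈ Γ)
    (h3 : ∀ u ∈ L, lift (evL hB u) ∈ Γ) {κ : M} {b α : ℤ}
    (hκ : ∀ u ∈ L, ∃ m : ℤ, B κ u = m) (hα : α ≠ 0)
    (hαw : (α : ℝ) • ((1 : ℝ), (b : ℝ), ((0 : ℝ), (0 : ℝ), κ)) ∈ hypL (hypL L))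
    {w' y : ℝ × ℝ × (ℝ × ℝ × M)}
    (hcl : w' - ((1 : ℝ), (b : ℝ), ((0 : ℝ), (0 : ℝ), κ)) ∈ hypL (hypL L) ∨
      w' + ((1 : ℝ), (b : ℝ), ((0 : ℝ), (0 : ℝ), κ)) ∈ hypL (hypL L))
    (hnorm : hyp (hyp B) w' w' = hyp (hyp B) ((1 : ℝ), (b : ℝ), ((0 : ℝ), (0 : ℝ), κ))
      ((1 : ℝ), (b : ℝ), ((0 : ℝ), (0 : ℝ), κ)))
    (hy : y ∈ hypL (hypL L)) (hwy : hyp (hyp B) w' y = 1) :
    ∃ g ∈ Γ, ∃ c : ℝ, c * c = 1 ∧ g w' = c • ((1 : ℝ), (b : ℝ), ((0 : ℝ), (0 : ℝ), κ)) := by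
  have hi1 := hyp_int hint
  have hi2 := hyp_int hi1
  have hB1 := hB.hyp
  have hB2 := hB1.hyp
  set w : ℝ × ℝ × (ℝ × ℝ × M) := ((1 : ℝ), (b : ℝ), ((0 : ℝ), (0 : ℝ), κ)) with hw
  have he1 := hyp_even heven
  -- the generators act trivially on the discriminant group
  have t1 : ∀ u ∈ hypL L, Triv (hyp (hyp B)) (hypL (hypL L)) (evL hB.hyp u) := fun u hu =>
    evL_triv hi1 hB1 hu (he1 u hu)
  have t2 : ∀ u ∈ hypL L, Triv (hyp (hyp B)) (hypL (hypL L)) (fvL hB.hyp u) := fun u hu =>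
    swL_conj_triv (t1 u hu)
  have t3 : ∀ u ∈ L, Triv (hyp (hyp B)) (hypL (hypL L)) (lift (evL hB u)) := fun u hu =>
    lift_triv hB1 (evL_triv hint hB hu (heven u hu))
  -- `w` is in the dual lattice
  have hwd : ∀ x ∈ hypL (hypL L), ∃ m : ℤ, hyp (hyp B) w x = m := by
    rintro x ⟨⟨x1, hx1⟩, ⟨x2, hx2⟩, -, -, hx5⟩
    obtain ⟨m, hm⟩ := hκ _ hx5
    refine ⟨x2 + b * x1 + m, ?_⟩
    show (1 : ℝ) * x.2.1 + b * x.1 + (0 * x.2.2.2.1 + 0 * x.2.2.1 + B κ x.2.2.2.2) = _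
    rw [hm, hx1, hx2]
    push_cast
    ring
  have hw'd : ∀ x ∈ hypL (hypL L), ∃ m : ℤ, hyp (hyp B) w' x = m := by
    intro x hx
    obtain ⟨m, hm⟩ := hwd x hx
    rcases hcl with h | h
    · obtain ⟨m', hm'⟩ := hi2 _ h x hx
      refine ⟨m' + m, ?_⟩
      rw [hB2.sub_left, hm] at hm'
      push_cast
      linarith
    · obtain ⟨m', hm'⟩ := hi2 _ h x hx
      refine ⟨m' - m, ?_⟩
      rw [hB2.add_left, hm] at hm'
      push_cast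
      linarith
  have hαw' : (α : ℝ) • w' ∈ hypL (hypL L) := by
    rcases hcl with h | h
    · have h4 := (hypL (hypL L)).zsmul_mem h α
      have e : α • (w' - w) + (α : ℝ) • w = (α : ℝ) • w' := by
        rw [← Int.cast_smul_eq_zsmul ℝ, smul_sub, sub_add_cancel]
      rw [← e]
      exact (hypL (hypL L)).add_mem h4 hαw
    · have h4 := (hypL (hypL L)).zsmul_mem h α
      have e : α • (w' + w) - (α : ℝ) • w = (α : ℝ) • w' := by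
        rw [← Int.cast_smul_eq_zsmul ℝ, smul_add, add_sub_cancel_right]
      rw [← e]
      exact (hypL (hypL L)).sub_mem h4 hαw
  have hαR : (α : ℝ) ≠ 0 := by exact_mod_cast hα
  obtain ⟨γ, hγ, hP, α', b', κ', hα', hκ', hγz⟩ := eichlerN hint hB heven (Γ ⊓ DT hi2)
    (fun u hu => ⟨h1 u hu, t1 u hu⟩) (fun u hu => ⟨h2 u hu, t2 u hu⟩)
    (fun u hu => ⟨h3 u hu, t3 u hu⟩) hαw' hy (by
      rw [hB2.smul_left, hwy, mul_one]
      exact hαR)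
  set w2 : ℝ × ℝ × (ℝ × ℝ × M) := ((1 : ℝ), (b' : ℝ), ((0 : ℝ), (0 : ℝ), κ')) with hw2
  have hw2d : ∀ x ∈ hypL (hypL L), ∃ m : ℤ, hyp (hyp B) w2 x = m := by
    rintro x ⟨⟨x1, hx1⟩, ⟨x2, hx2⟩, -, -, hx5⟩
    obtain ⟨m, hm⟩ := hκ' _ hx5
    refine ⟨x2 + b' * x1 + m, ?_⟩
    show (1 : ℝ) * x.2.1 + b' * x.1 + (0 * x.2.2.2.1 + 0 * x.2.2.1 + B κ' x.2.2.2.2) = _
    rw [hm, hx1, hx2]
    push_cast
    ring
  have hγw : γ w' = ((α' : ℝ) / α) • w2 := by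
    have h4 : (α : ℝ) • γ w' = (α' : ℝ) • w2 := by
      rw [← hγz, map_smul]
    have h5 : γ w' = (α : ℝ)⁻¹ • (α : ℝ) • γ w' := by
      rw [smul_smul, inv_mul_cancel₀ hαR, one_smul]
    rw [h5, h4, smul_smul]
    congr 1
    rw [div_eq_inv_mul]
  set c : ℝ := (α' : ℝ) / α with hc
  -- `c` is `1` or `-1`
  have hcint : ∃ m : ℤ, c = m := by
    have hf : ((0 : ℝ), (1 : ℝ), ((0 : ℝ), (0 : ℝ), (0 : M))) ∈ hypL (hypL L) :=
      ⟨⟨0, by simp⟩, ⟨1, by simp⟩, ⟨0, by simp⟩, ⟨0, by simp⟩, L.zero_mem⟩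
    have h4 := hγ.2.2 w' hw'd
    obtain ⟨m1, hm1⟩ := hi2 _ h4 _ hf
    obtain ⟨m2, hm2⟩ := hw'd _ hf
    rw [hB2.sub_left, hm2, hγw, hB2.smul_left] at hm1
    have h5 : hyp (hyp B) w2 ((0 : ℝ), (1 : ℝ), ((0 : ℝ), (0 : ℝ), (0 : M))) = 1 := by
      show (1 : ℝ) * 1 + b' * 0 + (0 * 0 + 0 * 0 + B κ' 0) = 1
      rw [hB.zero_right]
      ring
    rw [h5] at hm1
    refine ⟨m1 + m2, ?_⟩
    push_cast
    linarith
  have hcc : c * c = 1 := by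
    obtain ⟨m, hm⟩ := hcint
    obtain ⟨k, hk⟩ := hw2d (γ y) ((hP.2 y).mpr hy)
    have h4 := hP.1 w' y
    rw [hwy, hγw, hB2.smul_left, hk, hm] at h4
    have h6 : m * k = 1 := by exact_mod_cast h4
    have h7 : m * m = 1 := by
      rcases Int.isUnit_iff.mp (IsUnit.of_mul_eq_one _ h6) with h | h
      · rw [h]; rfl
      · rw [h]; rfl
    rw [hm]
    exact_mod_cast h7
  -- norm
  have hn2 : hyp (hyp B) w2 w2 = hyp (hyp B) w w := by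
    have h4 := hP.1 w' w'
    rw [hγw, hB2.smul_left, hB2.smul_right, ← mul_assoc, hcc, one_mul] at h4
    rw [h4, hnorm]
  have hn2' : 2 * (b' : ℝ) + B κ' κ' = 2 * (b : ℝ) + B κ κ := by
    have e1 : hyp (hyp B) w2 w2 = 2 * (b' : ℝ) + B κ' κ' := by
      show (1 : ℝ) * b' + b' * 1 + (0 * 0 + 0 * 0 + B κ' κ') = _
      ring
    have e2 : hyp (hyp B) w w = 2 * (b : ℝ) + B κ κ := by
      show (1 : ℝ) * b + b * 1 + (0 * 0 + 0 * 0 + B κ κ) = _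
      ring
    rw [← e1, ← e2, hn2]
  -- class
  have hcl2 : κ' - κ ∈ L ∨ κ' + κ ∈ L := by
    have h4 := hγ.2.2 w' hw'd
    rw [hγw] at h4
    have hcs : c = 1 ∨ c = -1 := by
      have : (c - 1) * (c + 1) = 0 := by linarith
      rcases mul_eq_zero.mp this with h | h
      · left; linarith
      · right; linarith
    rcases hcs with hc1 | hc1
    · rw [hc1, one_smul] at h4
      rcases hcl with h | h
      · left
        have h5 := (hypL (hypL L)).add_mem h4 h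
        have e : w2 - w' + (w' - w) = w2 - w := by abel
        rw [e] at h5
        exact h5.2.2.2.2
      · right
        have h5 := (hypL (hypL L)).add_mem h4 h
        have e : w2 - w' + (w' + w) = w2 + w := by abel
        rw [e] at h5
        exact h5.2.2.2.2
    · rw [hc1, neg_one_smul] at h4
      rcases hcl with h | h
      · right
        have h5 := (hypL (hypL L)).neg_mem ((hypL (hypL L)).add_mem h4 h)
        have e : -(-w2 - w' + (w' - w)) = w2 + w := by abel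
        rw [e] at h5
        exact h5.2.2.2.2
      · left
        have h5 := (hypL (hypL L)).neg_mem ((hypL (hypL L)).add_mem h4 h)
        have e : -(-w2 - w' + (w' + w)) = w2 - w := by abel
        rw [e] at h5
        exact h5.2.2.2.2
  -- a general move of the last coordinate
  have move : ∀ u ∈ L, evL hB.hyp ((0 : ℝ), (0 : ℝ), u) ∈ Γ ∧
      evL hB.hyp ((0 : ℝ), (0 : ℝ), u) w2 =
        ((1 : ℝ), (b' : ℝ) + B κ' u - B u u / 2, ((0 : ℝ), (0 : ℝ), κ' - u)) := by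
    intro u hu
    refine ⟨h1 _ ⟨⟨0, by simp⟩, ⟨0, by simp⟩, hu⟩, ?_⟩
    show ev (hyp B) ((0 : ℝ), (0 : ℝ), u) w2 = _
    refine Prod.ext rfl (Prod.ext ?_ ?_)
    · show (b' : ℝ) + (0 * 0 + 0 * 0 + B κ' u) - (0 * 0 + 0 * 0 + B u u) / 2 * 1 = _
      ring
    · show ((0 : ℝ), (0 : ℝ), κ') - (1 : ℝ) • ((0 : ℝ), (0 : ℝ), u) = _
      rw [one_smul]
      refine Prod.ext ?_ (Prod.ext ?_ rfl)
      · show (0 : ℝ) - 0 = 0
        ring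
      · show (0 : ℝ) - 0 = 0
        ring
  rcases hcl2 with h | h
  · obtain ⟨hm1, hm2⟩ := move _ h
    refine ⟨evL hB.hyp ((0 : ℝ), (0 : ℝ), κ' - κ) * γ, Γ.mul_mem hm1 hγ.1, c, hcc, ?_⟩
    show evL hB.hyp ((0 : ℝ), (0 : ℝ), κ' - κ) (γ w') = _
    rw [hγw, map_smul, hm2]
    congr 1
    refine Prod.ext rfl (Prod.ext ?_ (Prod.ext rfl (Prod.ext rfl ?_)))
    · show (b' : ℝ) + B κ' (κ' - κ) - B (κ' - κ) (κ' - κ) / 2 = b
      simp only [hB.sub_left, hB.sub_right]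
      rw [hB.symm κ κ']
      linarith
    · show κ' - (κ' - κ) = κ
      abel
  · obtain ⟨hm1, hm2⟩ := move _ h
    have hwp : wp hB ∈ Γ := by
      have a1 := h1 ((1 : ℝ), (0 : ℝ), (0 : M)) ⟨⟨1, by simp⟩, ⟨0, by simp⟩, L.zero_mem⟩
      have b1 := h2 ((0 : ℝ), (1 : ℝ), (0 : M)) ⟨⟨0, by simp⟩, ⟨1, by simp⟩, L.zero_mem⟩
      exact Γ.mul_mem (Γ.mul_mem b1 a1) b1
    refine ⟨wp hB * wp hB * (evL hB.hyp ((0 : ℝ), (0 : ℝ), κ' + κ) * γ),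
      Γ.mul_mem (Γ.mul_mem hwp hwp) (Γ.mul_mem hm1 hγ.1), -c, by rw [neg_mul_neg, hcc], ?_⟩
    show wp hB (wp hB (evL hB.hyp ((0 : ℝ), (0 : ℝ), κ' + κ) (γ w'))) = _
    rw [hγw, map_smul, hm2, map_smul, map_smul, neg_smul, ← smul_neg]
    congr 1
    rw [wp_apply, wp_apply]
    refine Prod.ext ?_ (Prod.ext ?_ (Prod.ext ?_ (Prod.ext ?_ ?_)))
    · show -(1 : ℝ) = -1
      rfl
    · show -((b' : ℝ) + B κ' (κ' + κ) - B (κ' + κ) (κ' + κ) / 2) = -b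
      simp only [hB.add_left, hB.add_right]
      rw [hB.symm κ κ']
      linarith
    · show -(0 : ℝ) = -0
      rfl
    · show -(0 : ℝ) = -0
      rfl
    · show κ' - (κ' + κ) = -κ
      abel

end Pool.Agent.H1L39
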