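import Pool.Agent.LI39.Tails

/-!
The Eichler criterion: normal forms of lattice vectors of arbitrary divisibility, and vectors of
the dual lattice with the same norm and the same class (up to sign) modulo the lattice.
The proof of `eichlerN` follows `Pool.Agent.LI39.eichler`.
-/

namespace Pool.Agent.H1L39

open Pool.Agent.LI39

variable {M : Type*} [AddCommGroup M] [Module ℝ M] {B : M → M → ℝ} {L : AddSubgroup M}

/-- Every lattice vector which is not in the radical can be moved to a multiple of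
`(1, b, (0, 0, κ))` with `b` an integer and `κ` in the dual lattice. -/
lemma eichlerN (hint : ∀ x ∈ L, ∀ y ∈ L, ∃ m : ℤ, B x y = m) (hB : SymBilin B)
    (heven : ∀ u ∈ L, ∃ m : ℤ, B u u = 2 * m)
    (Γ : Subgroup ((ℝ × ℝ × (ℝ × ℝ × M)) ≃ₗ[ℝ] (ℝ × ℝ × (ℝ × ℝ × M))))
    (h1 : ∀ u ∈ hypL L, evL hB.hyp u ∈ Γ) (h2 : ∀ u ∈ hypL L, fvL hB.hyp u ∈ Γ)
    (h3 : ∀ u ∈ L, lift (evL hB u) ∈ Γ) {z y0 : ℝ × ℝ × (ℝ × ℝ × M)}
    (hz : z ∈ hypL (hypL L)) (hy0 : y0 ∈ hypL (hypL L)) (hzy : hyp (hyp B) z y0 ≠ 0) :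
    ∃ γ ∈ Γ, Pres (hyp (hyp B)) (hypL (hypL L)) γ ∧
      ∃ (α b : ℤ) (κ : M), α ≠ 0 ∧ (∀ u ∈ L, ∃ m : ℤ, B κ u = m) ∧
        γ z = (α : ℝ) • ((1 : ℝ), (b : ℝ), ((0 : ℝ), (0 : ℝ), κ)) := by
  -- good elements
  have hij : ∀ i j : ℤ, ((i : ℝ), (j : ℝ), (0 : M)) ∈ hypL L := fun i j =>
    ⟨⟨i, rfl⟩, ⟨j, rfl⟩, L.zero_mem⟩
  have ga : ∀ i j : ℤ, evL hB.hyp ((i : ℝ), (j : ℝ), (0 : M)) ∈ Γ ∧
      Pres (hyp (hyp B)) (hypL (hypL L)) (evL hB.hyp ((i : ℝ), (j : ℝ), (0 : M))) := fun i j =>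
    ⟨h1 _ (hij i j), pres_ij hint hB i j⟩
  have gb : ∀ i j : ℤ, fvL hB.hyp ((i : ℝ), (j : ℝ), (0 : M)) ∈ Γ ∧
      Pres (hyp (hyp B)) (hypL (hypL L)) (fvL hB.hyp ((i : ℝ), (j : ℝ), (0 : M))) := fun i j =>
    ⟨h2 _ (hij i j), (swL_pres.mul (pres_ij hint hB i j)).mul swL_pres⟩
  have gc : ∀ u ∈ L, lift (evL hB u) ∈ Γ ∧
      Pres (hyp (hyp B)) (hypL (hypL L)) (lift (evL hB u)) := fun u hu =>
    ⟨h3 u hu, lift_pres (evL_pres_even hint hB hu (heven u hu))⟩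
  have gmul : ∀ {g g' : (ℝ × ℝ × (ℝ × ℝ × M)) ≃ₗ[ℝ] (ℝ × ℝ × (ℝ × ℝ × M))},
      (g ∈ Γ ∧ Pres (hyp (hyp B)) (hypL (hypL L)) g) →
      (g' ∈ Γ ∧ Pres (hyp (hyp B)) (hypL (hypL L)) g') →
      (g * g' ∈ Γ ∧ Pres (hyp (hyp B)) (hypL (hypL L)) (g * g')) := fun h h' =>
    ⟨Γ.mul_mem h.1 h'.1, h.2.mul h'.2⟩
  have gwp : wp hB ∈ Γ ∧ Pres (hyp (hyp B)) (hypL (hypL L)) (wp hB) := by
    have a1 := ga 1 0
    have b1 := gb 0 1
    push_cast at a1 b1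
    exact gmul (gmul b1 a1) b1
  have gwr : wr hB ∈ Γ ∧ Pres (hyp (hyp B)) (hypL (hypL L)) (wr hB) := by
    have a1 := ga 0 1
    have b1 := gb 1 0
    push_cast at a1 b1
    exact gmul (gmul b1 a1) b1
  -- a good element with nonzero first coordinate
  have hne : ∃ g, (g ∈ Γ ∧ Pres (hyp (hyp B)) (hypL (hypL L)) g) ∧ (g z).1 ≠ 0 := by
    by_cases c1 : z.1 = 0
    · by_cases c2 : z.2.1 = 0
      · by_cases c3 : z.2.2.1 = 0
        · by_cases c4 : z.2.2.2.1 = 0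
          · refine ⟨wr hB * lift (evL hB y0.2.2.2.2), gmul gwr (gc _ hy0.2.2.2.2), ?_⟩
            show (wr hB (lift (evL hB y0.2.2.2.2) z)).1 ≠ 0
            rw [wr_apply]
            show z.2.2.2.1 + B z.2.2.2.2 y0.2.2.2.2 - B y0.2.2.2.2 y0.2.2.2.2 / 2 * z.2.2.1 ≠ 0
            have e : hyp (hyp B) z y0 = B z.2.2.2.2 y0.2.2.2.2 := by
              simp only [hyp, c1, c2, c3, c4]
              ring
            rw [e] at hzy
            rw [c3, c4]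
            simpa using hzy
          · refine ⟨wr hB, gwr, ?_⟩
            rw [wr_apply]
            exact c4
        · refine ⟨wp hB, gwp, ?_⟩
          rw [wp_apply]
          exact c3
      · refine ⟨wr hB * wp hB, gmul gwr gwp, ?_⟩
        show (wr hB (wp hB z)).1 ≠ 0
        rw [wr_apply, wp_apply]
        exact neg_ne_zero.mpr c2
    · exact ⟨1, ⟨Γ.one_mem, ⟨fun _ _ => rfl, fun _ => Iff.rfl⟩⟩, c1⟩
  -- minimal first coordinate
  have hfst : ∀ g, Pres (hyp (hyp B)) (hypL (hypL L)) g → ∃ k : ℕ, |(g z).1| = k := by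
    intro g hg
    obtain ⟨⟨m, hm⟩, -⟩ := (hg.2 z).mpr hz
    exact ⟨m.natAbs, by rw [hm, Nat.cast_natAbs, Int.cast_abs]⟩
  classical
  have hex : ∃ k : ℕ, 0 < k ∧ ∃ g, (g ∈ Γ ∧ Pres (hyp (hyp B)) (hypL (hypL L)) g) ∧
      |(g z).1| = k := by
    obtain ⟨g, hg, hgne⟩ := hne
    obtain ⟨k, hk⟩ := hfst g hg.2
    refine ⟨k, ?_, g, hg, hk⟩
    rw [Nat.pos_iff_ne_zero]
    rintro rfl
    apply hgne
    rw [Nat.cast_zero, abs_eq_zero] at hk
    exact hk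
  obtain ⟨hk0, g0, hg0, hg0k⟩ := Nat.find_spec hex
  set k0 := Nat.find hex with hk0def
  have hmin : ∀ g, (g ∈ Γ ∧ Pres (hyp (hyp B)) (hypL (hypL L)) g) →
      (g z).1 = 0 ∨ (k0 : ℝ) ≤ |(g z).1| := by
    intro g hg
    by_cases h : (g z).1 = 0
    · exact Or.inl h
    · right
      obtain ⟨k, hk⟩ := hfst g hg.2
      rw [hk]
      have hkpos : 0 < k := by
        rw [Nat.pos_iff_ne_zero]
        rintro rfl
        rw [Nat.cast_zero, abs_eq_zero] at hk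
        exact h hk
      exact_mod_cast Nat.find_min' hex ⟨hkpos, g, hg, hk⟩
  have hk0R : (0 : ℝ) < k0 := by exact_mod_cast hk0
  have claim1 : ∀ g, (g ∈ Γ ∧ Pres (hyp (hyp B)) (hypL (hypL L)) g) → |(g z).1| = k0 →
      (∃ m : ℤ, (g z).2.2.1 = (g z).1 * m) ∧ (∃ m : ℤ, (g z).2.2.2.1 = (g z).1 * m) := by
    intro g hg hgk
    have hα : (g z).1 ≠ 0 := by
      intro h
      rw [h, abs_zero] at hgk
      exact hk0R.ne hgk
    constructor
    · apply mult_of_round hα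
      rw [hgk]
      have h1 := hmin (wp hB * evL hB.hyp (((round ((g z).2.2.1 / (g z).1) : ℤ) : ℝ),
        ((0 : ℤ) : ℝ), (0 : M)) * g) (gmul (gmul gwp (ga _ 0)) hg)
      have e : ((wp hB * evL hB.hyp (((round ((g z).2.2.1 / (g z).1) : ℤ) : ℝ),
        ((0 : ℤ) : ℝ), (0 : M)) * g) z).1 =
          (g z).2.2.1 - (g z).1 * (round ((g z).2.2.1 / (g z).1) : ℤ) := by
        show (wp hB (evL hB.hyp (((round ((g z).2.2.1 / (g z).1) : ℤ) : ℝ),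
          ((0 : ℤ) : ℝ), (0 : M)) (g z))).1 = _
        rw [wp_apply, ev_ij hB]
      rw [e] at h1
      exact h1
    · apply mult_of_round hα
      rw [hgk]
      have h1 := hmin (wr hB * evL hB.hyp (((0 : ℤ) : ℝ),
        ((round ((g z).2.2.2.1 / (g z).1) : ℤ) : ℝ), (0 : M)) * g)
        (gmul (gmul gwr (ga 0 _)) hg)
      have e : ((wr hB * evL hB.hyp (((0 : ℤ) : ℝ),
        ((round ((g z).2.2.2.1 / (g z).1) : ℤ) : ℝ), (0 : M)) * g) z).1 =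
          (g z).2.2.2.1 - (g z).1 * (round ((g z).2.2.2.1 / (g z).1) : ℤ) := by
        show (wr hB (evL hB.hyp (((0 : ℤ) : ℝ),
          ((round ((g z).2.2.2.1 / (g z).1) : ℤ) : ℝ), (0 : M)) (g z))).1 = _
        rw [wr_apply, ev_ij hB]
      rw [e] at h1
      exact h1
  obtain ⟨⟨m1, hm1⟩, ⟨m2, hm2⟩⟩ := claim1 g0 hg0 hg0k
  set α := (g0 z).1 with hα
  have hα0 : α ≠ 0 := by
    intro h
    rw [h, abs_zero] at hg0k
    exact hk0R.ne hg0k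
  set g1 := evL hB.hyp ((m1 : ℝ), (m2 : ℝ), (0 : M)) * g0 with hg1
  have hg1p : g1 ∈ Γ ∧ Pres (hyp (hyp B)) (hypL (hypL L)) g1 := gmul (ga _ _) hg0
  set β := (g0 z).2.1 + ((g0 z).2.2.1 * m2 + (g0 z).2.2.2.1 * m1) - m1 * m2 * α with hβ
  set y := (g0 z).2.2.2.2 with hy
  have hg1z : g1 z = (α, β, ((0 : ℝ), (0 : ℝ), y)) := by
    show evL hB.hyp ((m1 : ℝ), (m2 : ℝ), (0 : M)) (g0 z) = _
    rw [ev_ij hB]
    refine Prod.ext rfl (Prod.ext rfl (Prod.ext ?_ (Prod.ext ?_ rfl)))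
    · show (g0 z).2.2.1 - (g0 z).1 * m1 = 0
      rw [hm1]
      ring
    · show (g0 z).2.2.2.1 - (g0 z).1 * m2 = 0
      rw [hm2]
      ring
  -- the second coordinate
  have hβm : ∃ m : ℤ, β = α * m := by
    apply mult_of_round hα0
    rw [hg0k]
    have h1 := hmin (wr hB * wp hB * evL hB.hyp (((1 : ℤ) : ℝ), ((round (β / α) : ℤ) : ℝ),
      (0 : M)) * g1) (gmul (gmul (gmul gwr gwp) (ga _ _)) hg1p)
    have e : ((wr hB * wp hB * evL hB.hyp (((1 : ℤ) : ℝ), ((round (β / α) : ℤ) : ℝ),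
      (0 : M)) * g1) z).1 = -(β - α * (round (β / α) : ℤ)) := by
      show (wr hB (wp hB (evL hB.hyp (((1 : ℤ) : ℝ), ((round (β / α) : ℤ) : ℝ),
        (0 : M)) (g1 z)))).1 = _
      rw [wr_apply, wp_apply, ev_ij hB, hg1z]
      push_cast
      ring
    rw [e, abs_neg, neg_eq_zero] at h1
    exact h1
  obtain ⟨b, hb⟩ := hβm
  have hBy : ∀ u ∈ L, ∃ m : ℤ, B y u = α * m := by
    intro u hu
    have hp := gmul (gc u hu) hg1p
    have e : (lift (evL hB u) * g1) z = (α, β, ((0 : ℝ), B y u, y)) := by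
      show lift (evL hB u) (g1 z) = _
      rw [hg1z]
      show (α, β, ev B u ((0 : ℝ), (0 : ℝ), y)) = _
      simp only [ev]
      refine Prod.ext rfl (Prod.ext rfl (Prod.ext rfl (Prod.ext ?_ ?_)))
      · simp
      · simp
    obtain ⟨-, ⟨m, hm⟩⟩ := claim1 _ hp (by rw [e]; exact hg0k)
    rw [e] at hm
    exact ⟨m, hm⟩
  obtain ⟨⟨a0, ha0⟩, -, -, -, hyL⟩ := (hg1p.2.2 z).mpr hz
  rw [hg1z] at ha0
  have ha0' : α = a0 := ha0
  have ha00 : a0 ≠ 0 := by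
    rintro rfl
    exact hα0 (by rw [ha0']; simp)
  refine ⟨g1, hg1p.1, hg1p.2, a0, b, α⁻¹ • y, ha00, ?_, ?_⟩
  · intro u hu
    obtain ⟨m, hm⟩ := hBy u hu
    refine ⟨m, ?_⟩
    rw [hB.smul_left, hm]
    field_simp
  · rw [hg1z, ← ha0']
    refine Prod.ext ?_ (Prod.ext ?_ (Prod.ext ?_ (Prod.ext ?_ ?_)))
    · show α = α * 1
      ring
    · show β = α * b
      exact hb
    · show (0 : ℝ) = α * 0
      ring
    · show (0 : ℝ) = α * 0
      ring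
    · show y = α • α⁻¹ • y
      rw [smul_smul, mul_inv_cancel₀ hα0, one_smul]

end Pool.Agent.H1L39
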